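import Pool.Agent.KTB.StmtsKA

/-!
# KTB, row RAY (helper70): basic facts on proportional sets
-/

set_option autoImplicit false

namespace Pool.Agent.KTB.H70

open Finset
open scoped Classical

/-- RAY -/
theorem ray (idn : IdnStmt) : RayStmt := by
  intro ι T _ D S Q p f hR hQ
  obtain ⟨hQS, hr, l1, l2, hl1, hl2, hne⟩ := hR
  obtain ⟨r0, hr0⟩ := hQ
  obtain ⟨i1, i2, i3, i4, -⟩ := idn ι T D S
  have hp0 : 0 < p r0 := (hr r0 hr0).1
  -- (a)
  have ha : ∀ Y i, D.Priv (S \ Q) Y i → ∀ l, D.Sol S l →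
      l Y = 1 - (∑ r ∈ Q, (D.x i r : ℚ) * p r) * f l := by
    intro Y i hY l hl
    have h1 := i1 l hl i
    rw [← Finset.sum_sdiff hQS] at h1
    have h2 : ∑ a ∈ S \ Q, (D.x i a : ℚ) * l a = l Y := by
      rw [Finset.sum_eq_single Y]
      · rw [hY.2.1]
        simp
      · intro b hb hbY
        rw [hY.2.2 b hb hbY]
        simp
      · intro h
        exact absurd hY.1 h
    have h3 : ∑ a ∈ Q, (D.x i a : ℚ) * l a = (∑ r ∈ Q, (D.x i r : ℚ) * p r) * f l := by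
      rw [Finset.sum_mul]
      apply Finset.sum_congr rfl
      intro r hrQ
      rw [(hr r hrQ).2 l hl]
      ring
    rw [h2, h3] at h1
    linarith
  -- (b)
  obtain ⟨s, hs⟩ : ∃ s : (ι → ℚ) →ₗ[ℚ] ℚ, ∀ v, s v = (p r0)⁻¹ * v r0 :=
    ⟨(p r0)⁻¹ • LinearMap.proj r0, fun v => rfl⟩
  have hb2 : ∀ l l', D.Sol S l → D.Sol S l' → f l' - f l = s (l' - l) := by
    intro l l' hl hl'
    rw [hs, Pi.sub_apply, (hr r0 hr0).2 l hl, (hr r0 hr0).2 l' hl', ← mul_sub, ← mul_assoc,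
      inv_mul_cancel₀ hp0.ne', one_mul]
  have hb1 : ∀ ρ ∈ D.R S, ∀ r ∈ Q, ρ r = p r * s ρ := by
    intro ρ hρ r hrQ
    have h1 := i4 l1 hl1 ρ hρ
    have h2 := hb2 l1 (l1 + ρ) hl1 h1
    rw [add_sub_cancel_left] at h2
    have h3 := (hr r hrQ).2 l1 hl1
    have h4 := (hr r hrQ).2 (l1 + ρ) h1
    rw [Pi.add_apply] at h4
    rw [← h2, mul_sub, ← h3, ← h4]
    ring
  have hb3 : ∃ ρ ∈ D.R S, s ρ ≠ 0 := by
    refine ⟨l2 - l1, i3 l1 l2 hl1 hl2, ?_⟩
    rw [← hb2 l1 l2 hl1 hl2]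
    exact sub_ne_zero.2 (Ne.symm hne)
  have hb4 : ∀ ρ ∈ D.R S, (ρ ∈ D.R (S \ Q) ↔ s ρ = 0) := by
    intro ρ hρ
    constructor
    · intro h
      rw [hs, h.2 r0 (by simp [hr0]), mul_zero]
    · intro h
      refine ⟨hρ.1, fun a ha' => ?_⟩
      by_cases haQ : a ∈ Q
      · rw [hb1 ρ hρ a haQ, h, mul_zero]
      · apply hρ.2 a
        intro haS
        exact ha' (Finset.mem_sdiff.2 ⟨haS, haQ⟩)
  -- (c)
  have hc : ∀ l, D.Sol (S \ Q) l ↔ D.Sol S l ∧ f l = 0 := by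
    intro l
    constructor
    · intro h
      have h1 : D.Sol S l := by
        refine ⟨h.1, fun a ha' => h.2 a ?_⟩
        intro h2
        exact ha' (Finset.mem_sdiff.1 h2).1
      refine ⟨h1, ?_⟩
      have h2 := (hr r0 hr0).2 l h1
      rw [h.2 r0 (by simp [hr0])] at h2
      rcases mul_eq_zero.1 h2.symm with h3 | h3
      · exact absurd h3 hp0.ne'
      · exact h3
    · rintro ⟨h, h0⟩
      refine ⟨h.1, fun a ha' => ?_⟩
      by_cases haQ : a ∈ Q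
      · rw [(hr a haQ).2 l h, h0, mul_zero]
      · apply h.2 a
        intro haS
        exact ha' (Finset.mem_sdiff.2 ⟨haS, haQ⟩)
  have hex : ∃ l, D.Sol (S \ Q) l := by
    have hd : f l2 - f l1 ≠ 0 := sub_ne_zero.2 (Ne.symm hne)
    have h1 : (-(f l1) / (f l2 - f l1)) • (l2 - l1) ∈ D.R S :=
      (D.R S).smul_mem _ (i3 l1 l2 hl1 hl2)
    have h2 := i4 l1 hl1 _ h1
    refine ⟨_, (hc _).2 ⟨h2, ?_⟩⟩
    have h3 := hb2 l1 _ hl1 h2
    rw [add_sub_cancel_left, map_smul, ← hb2 l1 l2 hl1 hl2, smul_eq_mul,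
      div_mul_cancel₀ _ hd] at h3
    linarith
  -- (d)
  have hle : D.R (S \ Q) ≤ D.R S := by
    intro ρ hρ
    refine ⟨hρ.1, fun a ha' => hρ.2 a ?_⟩
    intro h2
    exact ha' (Finset.mem_sdiff.1 h2).1
  have hd : D.nul (S \ Q) + 1 = D.nul S := by
    obtain ⟨ρ, hρ, hsρ⟩ := hb3
    have h1 : s.comp (D.R S).subtype ≠ 0 := by
      intro h
      apply hsρ
      have := LinearMap.congr_fun h ⟨ρ, hρ⟩
      simpa using this
    have h2 : LinearMap.range (s.comp (D.R S).subtype) = ⊤ :=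
      LinearMap.range_eq_top.2 (LinearMap.surjective h1)
    have h3 := LinearMap.finrank_range_add_finrank_ker (s.comp (D.R S).subtype)
    rw [h2, finrank_top, Module.finrank_self] at h3
    have h4 : LinearMap.ker (s.comp (D.R S).subtype) =
        Submodule.comap (D.R S).subtype (D.R (S \ Q)) := by
      ext v
      rw [LinearMap.mem_ker, Submodule.mem_comap, LinearMap.comp_apply]
      exact (hb4 v.1 v.2).symm
    rw [h4, (Submodule.comapSubtypeEquivOfLe hle).finrank_eq] at h3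
    unfold Dat.nul
    omega
  refine ⟨ha, ⟨s, hb1, hb2, hb3, hb4⟩, hex, hc, hd, ?_⟩
  -- (e)
  intro hLL Y i hY hu
  have h1 : ∃ r ∈ Q, D.x i r ≠ 0 := by
    by_contra h
    push Not at h
    have h2 : D.Priv S Y i := by
      refine ⟨(Finset.mem_sdiff.1 hY.1).1, hY.2.1, fun b hb hbY => ?_⟩
      by_cases hbQ : b ∈ Q
      · exact h b hbQ
      · exact hY.2.2 b (Finset.mem_sdiff.2 ⟨hb, hbQ⟩) hbY
    obtain ⟨j, hji, hj⟩ := hLL.2 Y i h2
    apply hji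
    apply hu
    exact ⟨hY.1, hj.2.1, fun b hb hbY => hj.2.2 b (Finset.mem_sdiff.1 hb).1 hbY⟩
  refine ⟨h1, ?_⟩
  obtain ⟨r, hrQ, hrx⟩ := h1
  apply Finset.sum_pos'
  · intro a haQ
    exact mul_nonneg (Nat.cast_nonneg _) (hr a haQ).1.le
  · exact ⟨r, hrQ, mul_pos (by exact_mod_cast Nat.pos_of_ne_zero hrx) (hr r hrQ).1⟩

end Pool.Agent.KTB.H70
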